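import Mathlib

set_option autoImplicit false
set_option linter.unusedSectionVars false
set_option linter.unnecessarySimpa false

namespace Pool.Agent.Results.MP_7bb607_co.CycleDrop

open ExteriorAlgebra

/-- A finite simplicial complex with vertices in `V`; the empty face is a face. -/
structure Cx (V : Type) where
  faces : Finset (Finset V)
  empty_mem : ∅ ∈ faces
  down : ∀ σ ∈ faces, ∀ τ, τ ⊆ σ → τ ∈ faces

/-- Homogeneous coordinates of a point of `ℝ^d`: append the coordinate 1. -/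
def bar {d : ℕ} (x : Fin d → ℝ) : Fin (d + 1) → ℝ := Fin.snoc x 1

/-- Vertical projection: forget the last coordinate. -/
def proj {d : ℕ} (x : Fin (d + 1) → ℝ) : Fin d → ℝ := fun i => x i.castSucc

section algebra
variable {E : Type} [AddCommGroup E] [Module ℝ E]

/-- right contraction by a functional -/
noncomputable def ctr (f : Module.Dual ℝ E) (a : ExteriorAlgebra ℝ E) : ExteriorAlgebra ℝ E :=
  CliffordAlgebra.contractRight (Q := (0 : QuadraticForm ℝ E)) a f

lemma ctr_mul_ι (f : Module.Dual ℝ E) (a : ExteriorAlgebra ℝ E) (v : E) :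
    ctr f (a * ι ℝ v) = f v • a - ctr f a * ι ℝ v :=
  CliffordAlgebra.contractRight_mul_ι (Q := (0 : QuadraticForm ℝ E)) f v a

lemma ctr_add (f : Module.Dual ℝ E) (a b : ExteriorAlgebra ℝ E) :
    ctr f (a + b) = ctr f a + ctr f b := by
  simp [ctr]

lemma ctr_zero (f : Module.Dual ℝ E) : ctr f 0 = 0 := by
  simp [ctr]

lemma ctr_smul (f : Module.Dual ℝ E) (c : ℝ) (a : ExteriorAlgebra ℝ E) :
    ctr f (c • a) = c • ctr f a := by
  simp [ctr]

lemma ctr_one (f : Module.Dual ℝ E) : ctr f 1 = 0 :=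
  CliffordAlgebra.contractRight_one (Q := (0 : QuadraticForm ℝ E)) f

lemma ctr_mem_zero (f : Module.Dual ℝ E) (a : ExteriorAlgebra ℝ E) (ha : a ∈ ⋀[ℝ]^0 E) :
    ctr f a = 0 := by
  rw [exteriorPower, pow_zero] at ha
  obtain ⟨r, rfl⟩ := Submodule.mem_one.mp ha
  rw [Algebra.algebraMap_eq_smul_one, ctr_smul, ctr_one, smul_zero]

lemma ctr_mem (f : Module.Dual ℝ E) : ∀ (n : ℕ) (a : ExteriorAlgebra ℝ E),
    a ∈ ⋀[ℝ]^(n + 1) E → ctr f a ∈ ⋀[ℝ]^n E := by
  intro n
  induction n with
  | zero =>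
    intro a ha
    rw [exteriorPower, zero_add, pow_one] at ha
    obtain ⟨v, rfl⟩ := ha
    have : ctr f (ι ℝ v) = algebraMap ℝ _ (f v) :=
      CliffordAlgebra.contractRight_ι (Q := (0 : QuadraticForm ℝ E)) f v
    rw [this, exteriorPower, pow_zero]
    exact Submodule.algebraMap_mem _
  | succ n ih =>
    intro a ha
    rw [exteriorPower, pow_succ] at ha
    refine Submodule.mul_induction_on ha ?_ ?_
    · rintro b hb _ ⟨v, rfl⟩
      rw [ctr_mul_ι]
      refine Submodule.sub_mem _ (Submodule.smul_mem _ _ hb) ?_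
      rw [exteriorPower, pow_succ]
      exact Submodule.mul_mem_mul (ih b hb) ⟨v, rfl⟩
    · intro x y hx hy
      rw [ctr_add]
      exact Submodule.add_mem _ hx hy

lemma ι_anti (a : ExteriorAlgebra ℝ E) (x y : E) :
    a * ι ℝ x * ι ℝ y = - (a * ι ℝ y * ι ℝ x) := by
  have h := ι_add_mul_swap (R := ℝ) x y
  have h2 : ι ℝ x * ι ℝ y = - (ι ℝ y * ι ℝ x) := eq_neg_of_add_eq_zero_left h
  rw [mul_assoc, h2, mul_neg, mul_assoc]

/-- an element of degree n killed by n+1 (or more) vectors which admit dual functionals vanishes -/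
lemma kill : ∀ (n m : ℕ), n < m → ∀ (v : Fin m → E) (f : Fin m → Module.Dual ℝ E),
    (∀ i, f i (v i) = 1) → (∀ i j, j < i → f i (v j) = 0) →
    ∀ a : ExteriorAlgebra ℝ E, a ∈ ⋀[ℝ]^n E → (∀ i, a * ι ℝ (v i) = 0) → a = 0 := by
  intro n
  induction n with
  | zero =>
    intro m hm v f hf1 hf0 a ha hk
    have h := ctr_mul_ι (f ⟨0, hm⟩) a (v ⟨0, hm⟩)
    rw [hk, ctr_zero, ctr_mem_zero _ a ha, hf1] at h
    simpa using h.symm
  | succ n ih =>
    intro m hm v f hf1 hf0 a ha hk
    obtain ⟨m, rfl⟩ : ∃ m', m = m' + 1 := ⟨m - 1, by omega⟩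
    have h := ctr_mul_ι (f (Fin.last m)) a (v (Fin.last m))
    rw [hk, ctr_zero, hf1] at h
    simp only [one_smul] at h
    have h0 : ctr (f (Fin.last m)) a = 0 := by
      refine ih m (by omega) (fun i => v i.castSucc) (fun i => f i.castSucc) ?_ ?_ _
        (ctr_mem _ n a ha) ?_
      · intro i
        exact hf1 _
      · intro i j hij
        exact hf0 _ _ (Fin.castSucc_lt_castSucc_iff.2 hij)
      · intro i
        have h2 := ctr_mul_ι (f (Fin.last m)) a (v i.castSucc)
        rw [hk, ctr_zero, hf0 _ _ (Fin.castSucc_lt_last i), zero_smul, zero_sub] at h2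
        exact neg_eq_zero.mp h2.symm
    rw [h0, zero_mul, sub_zero] at h
    exact h.symm

/-- a product of `k` vectors -/
noncomputable def prodv (u : ℕ → E) : ℕ → ExteriorAlgebra ℝ E
  | 0 => 1
  | (k + 1) => prodv u k * ι ℝ (u k)

lemma prodv_mem (u : ℕ → E) (k : ℕ) : prodv u k ∈ ⋀[ℝ]^k E := by
  induction k with
  | zero => rw [exteriorPower, pow_zero]; exact Submodule.one_le.mp le_rfl
  | succ k ih =>
    rw [exteriorPower, pow_succ]
    exact Submodule.mul_mem_mul ih ⟨_, rfl⟩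

lemma prodv_kill (u : ℕ → E) (k : ℕ) : ∀ i, i < k → prodv u k * ι ℝ (u i) = 0 := by
  induction k with
  | zero => intro i hi; omega
  | succ k ih =>
    intro i hi
    show prodv u k * ι ℝ (u k) * ι ℝ (u i) = 0
    rcases Nat.lt_succ_iff_lt_or_eq.mp hi with h | h
    · rw [ι_anti, ih i h, zero_mul, neg_zero]
    · rw [h, mul_assoc, ι_sq_zero, mul_zero]

lemma ctr_prodv (u : ℕ → E) (f : Module.Dual ℝ E) (k : ℕ) (h : ∀ i, i < k → f (u i) = 0) :
    ctr f (prodv u k) = 0 := by
  induction k with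
  | zero => exact ctr_one f
  | succ k ih =>
    show ctr f (prodv u k * ι ℝ (u k)) = 0
    rw [ctr_mul_ι, h k (Nat.lt_succ_self k), ih (fun i hi => h i (Nat.lt_succ_of_lt hi))]
    simp

lemma prodv_ne (u : ℕ → E) (f : ℕ → Module.Dual ℝ E) (k : ℕ)
    (h1 : ∀ i, i < k → f i (u i) = 1) (h0 : ∀ i, i < k → ∀ j, j < i → f i (u j) = 0) :
    prodv u k ≠ 0 := by
  induction k with
  | zero => exact one_ne_zero
  | succ k ih =>
    intro h
    have h2 := ctr_mul_ι (f k) (prodv u k) (u k)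
    have h3 : prodv u k * ι ℝ (u k) = 0 := h
    rw [h3, ctr_zero, h1 k (Nat.lt_succ_self k), one_smul,
      ctr_prodv u (f k) k (h0 k (Nat.lt_succ_self k)), zero_mul, sub_zero] at h2
    exact ih (fun i hi => h1 i (Nat.lt_succ_of_lt hi)) (fun i hi => h0 i (Nat.lt_succ_of_lt hi))
      h2.symm

/-- division by two independent vectors -/
lemma divide (n : ℕ) (x y : E) (f g : Module.Dual ℝ E) (hfx : f x = 0) (hfy : f y = 1)
    (hgx : g x = 1) (a : ExteriorAlgebra ℝ E) (ha : a ∈ ⋀[ℝ]^(n + 2) E)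
    (hx : a * ι ℝ x = 0) (hy : a * ι ℝ y = 0) :
    ∃ b ∈ ⋀[ℝ]^n E, b * ι ℝ x * ι ℝ y = a := by
  have h1 : ctr f a * ι ℝ y = a := by
    have h := ctr_mul_ι f a y
    rw [hy, ctr_zero, hfy, one_smul] at h
    exact (sub_eq_zero.mp h.symm).symm
  have h2 : ctr f a * ι ℝ x = 0 := by
    have h := ctr_mul_ι f a x
    rw [hx, ctr_zero, hfx, zero_smul, zero_sub] at h
    exact neg_eq_zero.mp h.symm
  have h3 : ctr g (ctr f a) * ι ℝ x = ctr f a := by
    have h := ctr_mul_ι g (ctr f a) x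
    rw [h2, ctr_zero, hgx, one_smul] at h
    exact (sub_eq_zero.mp h.symm).symm
  exact ⟨ctr g (ctr f a), ctr_mem _ _ _ (ctr_mem _ _ _ ha), by rw [h3, h1]⟩

end algebra

section complex

variable {V : Type} [Fintype V] [LinearOrder V] {E : Type} [AddCommGroup E] [Module ℝ E]

/-- The exterior power `Λ^j E`. -/
def Lam (E : Type) [AddCommGroup E] [Module ℝ E] (j : ℕ) : Type := ↥(⋀[ℝ]^j E)

noncomputable instance instG (j : ℕ) : AddCommGroup (Lam E j) :=
  Submodule.addCommGroup (⋀[ℝ]^j E)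

noncomputable instance instM (j : ℕ) : Module ℝ (Lam E j) :=
  Submodule.module (⋀[ℝ]^j E)

/-- The inclusion of `Λ^j E` in the exterior algebra. -/
noncomputable def incl (E : Type) [AddCommGroup E] [Module ℝ E] (j : ℕ) :
    Lam E j →ₗ[ℝ] ExteriorAlgebra ℝ E := (⋀[ℝ]^j E).subtype

/-- The extensor of a face: the wedge product of the vectors `p v`, `v ∈ σ`, in increasing order. -/
noncomputable def extensor (p : V → E) (σ : Finset V) : ExteriorAlgebra ℝ E :=
  ((σ.sort (· ≤ ·)).map fun v => ι ℝ (p v)).prod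

/-- The subspace `{c : c ∧ extensor σ = 0}` of `Λ^j E`. -/
noncomputable def annih (p : V → E) (j : ℕ) (σ : Finset V) : Submodule ℝ (Lam E j) where
  carrier := {c | incl E j c * extensor p σ = 0}
  add_mem' := by
    intro a b ha hb
    rw [Set.mem_setOf_eq] at ha hb ⊢
    rw [map_add, add_mul, ha, hb, add_zero]
  zero_mem' := by
    rw [Set.mem_setOf_eq, map_zero, zero_mul]
  smul_mem' := by
    intro r a ha
    rw [Set.mem_setOf_eq] at ha ⊢
    rw [map_smul, smul_mul_assoc, ha, smul_zero]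

/-- The coefficient space `Λ^j E / {c : c ∧ extensor σ = 0}` of a face. -/
def Coeff (p : V → E) (j : ℕ) (σ : Finset V) : Type := Lam E j ⧸ annih p j σ

noncomputable instance instCG (p : V → E) (j : ℕ) (σ : Finset V) : AddCommGroup (Coeff p j σ) :=
  Submodule.Quotient.addCommGroup (annih p j σ)

noncomputable instance instCM (p : V → E) (j : ℕ) (σ : Finset V) : Module ℝ (Coeff p j σ) :=
  Submodule.Quotient.module (annih p j σ)

lemma wedge_mem (j : ℕ) (w : E) (c : Lam E j) : incl E j c * ι ℝ w ∈ ⋀[ℝ]^(j + 1) E := by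
  rw [exteriorPower, pow_succ]
  exact Submodule.mul_mem_mul c.2 ⟨w, rfl⟩

/-- The wedge product with a vector `w` on the right, from `Λ^j E` to `Λ^(j+1) E`. -/
noncomputable def wedgeFun (j : ℕ) (w : E) (c : Lam E j) : Lam E (j + 1) :=
  ⟨incl E j c * ι ℝ w, wedge_mem j w c⟩

lemma wedge_add (j : ℕ) (w : E) (a b : Lam E j) :
    wedgeFun j w (a + b) = wedgeFun j w a + wedgeFun j w b := Subtype.ext (by
    show incl E j (a + b) * ι ℝ w = incl E j a * ι ℝ w + incl E j b * ι ℝ w
    rw [map_add, add_mul])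

lemma wedge_smul (j : ℕ) (w : E) (r : ℝ) (a : Lam E j) :
    wedgeFun j w (r • a) = r • wedgeFun j w a := Subtype.ext (by
    show incl E j (r • a) * ι ℝ w = r • (incl E j a * ι ℝ w)
    rw [map_smul, smul_mul_assoc])

/-- `wedgeFun` as a linear map. -/
noncomputable def wedge (j : ℕ) (w : E) : Lam E j →ₗ[ℝ] Lam E (j + 1) where
  toFun := wedgeFun j w
  map_add' := wedge_add j w
  map_smul' := wedge_smul j w

lemma prod_perm (p : V → E) {l₁ l₂ : List V} (h : l₁.Perm l₂) :
    (l₁.map fun v => ι ℝ (p v)).prod = (l₂.map fun v => ι ℝ (p v)).prod ∨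
    (l₁.map fun v => ι ℝ (p v)).prod = -(l₂.map fun v => ι ℝ (p v)).prod := by
  induction h with
  | nil => left; rfl
  | cons x _ ih =>
    simp only [List.map_cons, List.prod_cons]
    rcases ih with h | h
    · left; rw [h]
    · right; rw [h, mul_neg]
  | swap x y l =>
    right
    simp only [List.map_cons, List.prod_cons]
    have h := ι_add_mul_swap (R := ℝ) (p y) (p x)
    have h2 : ι ℝ (p y) * ι ℝ (p x) = - (ι ℝ (p x) * ι ℝ (p y)) := eq_neg_of_add_eq_zero_left h
    rw [← mul_assoc, h2, neg_mul, mul_assoc]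
  | trans _ _ ih₁ ih₂ =>
    rcases ih₁ with h | h <;> rcases ih₂ with h' | h' <;> rw [h, h'] <;> simp

lemma extensor_insert (p : V → E) (σ : Finset V) (x : V) (hx : x ∉ σ) :
    extensor p (insert x σ) = ι ℝ (p x) * extensor p σ ∨
    extensor p (insert x σ) = -(ι ℝ (p x) * extensor p σ) := by
  have : ((insert x σ).sort (· ≤ ·)).Perm (x :: σ.sort (· ≤ ·)) := by
    rw [← Multiset.coe_eq_coe, ← Multiset.cons_coe, Finset.sort_eq, Finset.sort_eq,
      Finset.insert_val_of_notMem hx]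
  simpa [extensor] using prod_perm p this

lemma wedge_annih (p : V → E) (j : ℕ) (τ : Finset V) (x : V) (hx : x ∉ τ) :
    annih p j (insert x τ) ≤ (annih p (j + 1) τ).comap (wedge j (p x)) := by
  intro c hc
  have hc' : incl E j c * extensor p (insert x τ) = 0 := hc
  show incl E j c * ι ℝ (p x) * extensor p τ = 0
  rcases extensor_insert p τ x hx with h | h
  · rw [h] at hc'
    rw [mul_assoc, hc']
  · rw [h, mul_neg, neg_eq_zero] at hc'
    rw [mul_assoc, hc']

/-- Wedging with `p x` sends the coefficient space of `τ ∪ {x}` to that of `τ`. -/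
noncomputable def wedgeCoeff (p : V → E) (j : ℕ) (τ : Finset V) (x : V) (hx : x ∉ τ) :
    Coeff p j (insert x τ) →ₗ[ℝ] Coeff p (j + 1) τ :=
  Submodule.mapQ (annih p j (insert x τ)) (annih p (j + 1) τ) (wedge j (p x))
    (wedge_annih p j τ x hx)

/-- The faces with exactly `k` vertices, that is of dimension `k - 1`. -/
abbrev Face (Δ : Cx V) (k : ℕ) : Type := {σ : Finset V // σ ∈ Δ.faces ∧ σ.card = k}

/-- The direct sum, over the faces `σ` with `k` vertices, of the coefficient spaces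
`Λ^j E / {c : c ∧ extensor σ = 0}`. -/
def Chain (Δ : Cx V) (p : V → E) (j k : ℕ) : Type := (σ : Face Δ k) → Coeff p j σ.1

noncomputable instance instChG (Δ : Cx V) (p : V → E) (j k : ℕ) : AddCommGroup (Chain Δ p j k) :=
  Pi.addCommGroup

noncomputable instance instChM (Δ : Cx V) (p : V → E) (j k : ℕ) : Module ℝ (Chain Δ p j k) :=
  Pi.module (Face Δ k) (fun σ => Coeff p j σ.1) ℝ

lemma card_ins {Δ : Cx V} {k : ℕ} (τ : Face Δ k) {x : V} (hx : x ∉ τ.1) :
    (insert x τ.1).card = k + 1 := by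
  rw [Finset.card_insert_of_notMem hx, τ.2.2]

/-- The vertices `x ∉ τ` for which `τ ∪ {x}` is again a face. -/
def Up (Δ : Cx V) (τ : Finset V) : Type := {x : V // x ∉ τ ∧ insert x τ ∈ Δ.faces}

instance instUp (Δ : Cx V) (τ : Finset V) : Fintype (Up Δ τ) := Subtype.fintype _

/-- The face `τ ∪ {x}`. -/
def up {Δ : Cx V} {k : ℕ} (τ : Face Δ k) (x : Up Δ τ.1) : Face Δ (k + 1) :=
  ⟨insert x.1 τ.1, x.2.2, card_ins τ x.2.1⟩

/-- The boundary map. The coordinate at the face `τ` of the boundary of `∑ c_σ · σ` is the sum of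
`c_σ ∧ p x` over all faces `σ = τ ∪ {x}` with `x ∉ τ`; this is the map
`c · σ ↦ ∑ x ∈ σ, (c ∧ p x) · (σ \ {x})`. -/
noncomputable def boundaryFun (Δ : Cx V) (p : V → E) (j k : ℕ) (c : Chain Δ p j (k + 1)) :
    Chain Δ p (j + 1) k :=
  fun τ => ∑ x : Up Δ τ.1, wedgeCoeff p j τ.1 x.1 x.2.1 (c (up τ x))

lemma boundary_add (Δ : Cx V) (p : V → E) (j k : ℕ) (a b : Chain Δ p j (k + 1)) :
    boundaryFun Δ p j k (a + b) = boundaryFun Δ p j k a + boundaryFun Δ p j k b := by
  funext τ
  refine Eq.trans ?_ (Finset.sum_add_distrib)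
  refine Finset.sum_congr rfl fun x _ => ?_
  exact map_add _ _ _

lemma boundary_smul (Δ : Cx V) (p : V → E) (j k : ℕ) (r : ℝ) (a : Chain Δ p j (k + 1)) :
    boundaryFun Δ p j k (r • a) = r • boundaryFun Δ p j k a := by
  funext τ
  have h := Finset.smul_sum (r := r) (s := Finset.univ)
    (f := fun x : Up Δ τ.1 => wedgeCoeff p j τ.1 x.1 x.2.1 (a (up τ x)))
  refine Eq.trans ?_ h.symm
  refine Finset.sum_congr rfl fun x _ => ?_
  exact (wedgeCoeff p j τ.1 x.1 x.2.1).map_smul r _

/-- `boundaryFun` as a linear map. -/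
noncomputable def boundary (Δ : Cx V) (p : V → E) (j k : ℕ) :
    Chain Δ p j (k + 1) →ₗ[ℝ] Chain Δ p (j + 1) k where
  toFun := boundaryFun Δ p j k
  map_add' := boundary_add Δ p j k
  map_smul' := boundary_smul Δ p j k

/-- The cycles in `Chain Δ p j k` (everything when `k = 0`). -/
noncomputable def cycles (Δ : Cx V) (p : V → E) (j : ℕ) : (k : ℕ) → Submodule ℝ (Chain Δ p j k)
  | 0 => ⊤
  | (k + 1) => LinearMap.ker (boundary Δ p j k)

/-- The boundaries in `Chain Δ p j k` (zero when `j = 0`). -/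
noncomputable def bounds (Δ : Cx V) (p : V → E) (k : ℕ) : (j : ℕ) → Submodule ℝ (Chain Δ p j k)
  | 0 => ⊥
  | (j + 1) => LinearMap.range (boundary Δ p j k)

/-- The homology at the faces with `k` vertices and coefficients of degree `j`:
cycles modulo boundaries. -/
def Homology (Δ : Cx V) (p : V → E) (j k : ℕ) : Type :=
  ↥(cycles Δ p j k) ⧸ (bounds Δ p k j).submoduleOf (cycles Δ p j k)

noncomputable instance instHG (Δ : Cx V) (p : V → E) (j k : ℕ) :
    AddCommGroup (Homology Δ p j k) :=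
  Submodule.Quotient.addCommGroup _

noncomputable instance instHM (Δ : Cx V) (p : V → E) (j k : ℕ) :
    Module ℝ (Homology Δ p j k) :=
  Submodule.Quotient.module _

/-- The Betti number of the skeletal `r`-rigidity complex in the degree `i = k - 1`
(faces with `k` vertices, coefficients of degree `j = r - 1 - i = r - k`). -/
noncomputable def betti (Δ : Cx V) (p : V → E) (r k : ℕ) : ℕ :=
  Module.finrank ℝ (Homology Δ p (r - k) k)

/-- evaluation of a coefficient -/
noncomputable def emb (p : V → E) (j : ℕ) (σ : Finset V) :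
    Coeff p j σ →ₗ[ℝ] ExteriorAlgebra ℝ E :=
  (annih p j σ).liftQ ((LinearMap.mulRight ℝ (extensor p σ)).comp (incl E j)) (fun _ h => h)

/-- the class of a coefficient -/
noncomputable def cls (p : V → E) (j : ℕ) (σ : Finset V) (c : Lam E j) : Coeff p j σ :=
  Submodule.Quotient.mk c

lemma cls_surj (p : V → E) (j : ℕ) (σ : Finset V) (y : Coeff p j σ) : ∃ c, y = cls p j σ c := by
  obtain ⟨c, hc⟩ := Submodule.mkQ_surjective _ y
  exact ⟨c, hc.symm⟩

lemma cls_eq_zero (p : V → E) (j : ℕ) (σ : Finset V) (c : Lam E j) :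
    cls p j σ c = 0 ↔ incl E j c * extensor p σ = 0 :=
  Submodule.Quotient.mk_eq_zero _

lemma cls_eq (p : V → E) (j : ℕ) (σ : Finset V) (a b : Lam E j) (h : cls p j σ a = cls p j σ b) :
    incl E j a * extensor p σ = incl E j b * extensor p σ := by
  have h7 := (Submodule.Quotient.eq _).1 h
  have h8 : incl E j (a - b) * extensor p σ = 0 := h7
  rw [map_sub, sub_mul, sub_eq_zero] at h8
  exact h8

lemma emb_inj (p : V → E) (j : ℕ) (σ : Finset V) (y : Coeff p j σ) (h : emb p j σ y = 0) :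
    y = 0 := by
  obtain ⟨c, rfl⟩ := cls_surj p j σ y
  exact (cls_eq_zero p j σ c).2 h

lemma emb_wedge (p : V → E) (j : ℕ) (τ : Finset V) (x : V) (hx : x ∉ τ) (c : Lam E j) :
    emb p (j + 1) τ (wedgeCoeff p j τ x hx (cls p j (insert x τ) c)) =
      incl E j c * ι ℝ (p x) * extensor p τ := rfl

lemma extensor_singleton (p : V → E) (v : V) : extensor p {v} = ι ℝ (p v) := by
  simp [extensor]

lemma extensor_empty (p : V → E) : extensor p ∅ = 1 := by
  simp [extensor]

lemma boundary_apply (Δ : Cx V) (p : V → E) (j k : ℕ) (c : Chain Δ p j (k + 1)) (τ : Face Δ k) :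
    emb p (j + 1) τ.1 (boundary Δ p j k c τ) =
      ∑ x : Up Δ τ.1, emb p (j + 1) τ.1 (wedgeCoeff p j τ.1 x.1 x.2.1 (c (up τ x))) := by
  rw [← map_sum]
  rfl

/-- Sanity check: the square of the boundary map vanishes. -/
lemma boundary_boundary (Δ : Cx V) (p : V → E) (j k : ℕ) (c : Chain Δ p j (k + 1 + 1)) :
    boundary Δ p (j + 1) k (boundary Δ p j (k + 1) c) = 0 := by
  funext τ
  apply emb_inj
  rw [boundary_apply]
  have hL : ∀ e : Face Δ (k + 1 + 1), ∃ a : Lam E j, c e = cls p j e.1 a :=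
    fun e => cls_surj _ _ _ _
  choose L hL using hL
  have h1 : ∀ x : Up Δ τ.1,
      emb p (j + 1 + 1) τ.1 (wedgeCoeff p (j + 1) τ.1 x.1 x.2.1
          ((boundary Δ p j (k + 1) c) (up τ x))) =
      ∑ y : Up Δ (up τ x).1, incl E j (L (up (up τ x) y)) * ι ℝ (p y.1) * ι ℝ (p x.1) *
        extensor p τ.1 := by
    intro x
    have h2 : (boundary Δ p j (k + 1) c) (up τ x) =
        ∑ y : Up Δ (up τ x).1,
          wedgeCoeff p j (up τ x).1 y.1 y.2.1 (c (up (up τ x) y)) := rfl
    have h3 : wedgeCoeff p (j + 1) τ.1 x.1 x.2.1 ((boundary Δ p j (k + 1) c) (up τ x)) =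
        ∑ y : Up Δ (up τ x).1, wedgeCoeff p (j + 1) τ.1 x.1 x.2.1
          (wedgeCoeff p j (insert x.1 τ.1) y.1 y.2.1 (c (up (up τ x) y))) :=
      (congrArg (wedgeCoeff p (j + 1) τ.1 x.1 x.2.1) h2).trans
        (map_sum (wedgeCoeff p (j + 1) τ.1 x.1 x.2.1) _ _)
    rw [h3, map_sum]
    refine Finset.sum_congr rfl fun y _ => ?_
    rw [hL]
    rfl
  rw [Finset.sum_congr rfl fun x _ => h1 x, Finset.sum_sigma']
  refine Finset.sum_involution
    (fun a _ => ⟨⟨a.2.1, fun h => a.2.2.1 (Finset.mem_insert_of_mem h),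
      Δ.down _ a.2.2.2 _ (Finset.insert_subset_insert _ (Finset.subset_insert _ _))⟩,
      ⟨a.1.1, by
        show a.1.1 ∉ insert a.2.1 τ.1
        rw [Finset.mem_insert]
        rintro (h | h)
        · exact a.2.2.1 (Finset.mem_insert.2 (Or.inl h.symm))
        · exact a.1.2.1 h, by
        show insert a.1.1 (insert a.2.1 τ.1) ∈ Δ.faces
        rw [Finset.insert_comm]; exact a.2.2.2⟩⟩) ?_ ?_ ?_ ?_
  · rintro ⟨⟨x, hx⟩, ⟨y, hy⟩⟩ _
    have h3 : ∀ (e e' : Face Δ (k + 1 + 1)), e.1 = e'.1 → L e = L e' := by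
      intro e e' h
      rw [Subtype.ext h]
    have hy' : y ∉ insert x τ.1 ∧ insert y (insert x τ.1) ∈ Δ.faces := hy
    have h4 := h3 ⟨insert x (insert y τ.1), by rw [Finset.insert_comm]; exact hy'.2, by
        rw [Finset.insert_comm, Finset.card_insert_of_notMem hy'.1,
          Finset.card_insert_of_notMem hx.1, τ.2.2]⟩
      ⟨insert y (insert x τ.1), hy'.2, by
        rw [Finset.card_insert_of_notMem hy'.1, Finset.card_insert_of_notMem hx.1, τ.2.2]⟩
      (Finset.insert_comm _ _ _)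
    have h5 : incl E j (L ⟨insert y (insert x τ.1), hy'.2, by
        rw [Finset.card_insert_of_notMem hy'.1, Finset.card_insert_of_notMem hx.1, τ.2.2]⟩) *
        ι ℝ (p y) * ι ℝ (p x) * extensor p τ.1 +
        incl E j (L ⟨insert x (insert y τ.1), by rw [Finset.insert_comm]; exact hy'.2, by
        rw [Finset.insert_comm, Finset.card_insert_of_notMem hy'.1,
          Finset.card_insert_of_notMem hx.1, τ.2.2]⟩) *
        ι ℝ (p x) * ι ℝ (p y) * extensor p τ.1 = 0 := by
      rw [h4, ← add_mul, ι_anti _ (p y) (p x), neg_add_cancel, zero_mul]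
    exact h5
  · rintro ⟨⟨x, hx⟩, ⟨y, hy⟩⟩ _ _ h
    have h5 : y = x := by
      have := congrArg (fun a => a.1.1) h
      exact this
    exact hy.1 (by rw [h5]; exact Finset.mem_insert_self _ _)
  · intro a _
    simp
  · rintro ⟨⟨x, hx⟩, ⟨y, hy⟩⟩ _
    rfl

end complex

/-- The cycle on the vertices `0, 1, ..., n`. -/
def cyc (n : ℕ) : Cx (Fin (n + 1)) where
  faces := Finset.univ.filter fun σ => ∃ i : Fin (n + 1), σ ⊆ {i, i + 1}
  empty_mem := by simp
  down := by
    intro σ hσ τ hτ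
    simp only [Finset.mem_filter, Finset.mem_univ, true_and] at hσ ⊢
    obtain ⟨i, hi⟩ := hσ
    exact ⟨i, hτ.trans hi⟩

lemma mem_cyc (n : ℕ) (σ : Finset (Fin (n + 1))) :
    σ ∈ (cyc n).faces ↔ ∃ i : Fin (n + 1), σ ⊆ {i, i + 1} := by
  simp [cyc]

lemma succ_ne (m : ℕ) (v : Fin (m + 4)) : v + 1 ≠ v := by
  intro h
  have h1 : (1 : Fin (m + 4)) = 0 := by simpa using h
  exact absurd h1 (by simp)

lemma succ_succ_ne (m : ℕ) (v : Fin (m + 4)) : v + 1 + 1 ≠ v := by
  intro h
  have h1 : (1 + 1 : Fin (m + 4)) = 0 := by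
    rw [add_assoc] at h
    simpa using h
  have h2 := congrArg Fin.val h1
  rw [Fin.val_add] at h2
  simp at h2
  rw [Nat.mod_eq_of_lt (by omega)] at h2
  omega

lemma star (m : ℕ) (v x : Fin (m + 4)) :
    (x ∉ ({v} : Finset (Fin (m + 4))) ∧ insert x {v} ∈ (cyc (m + 3)).faces) ↔
      x = v + 1 ∨ x + 1 = v := by
  rw [mem_cyc]
  constructor
  · rintro ⟨hx, i, hi⟩
    rw [Finset.mem_singleton] at hx
    have h1 : x = i ∨ x = i + 1 := by
      have := hi (Finset.mem_insert_self x {v})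
      simpa using this
    have h2 : v = i ∨ v = i + 1 := by
      have := hi (Finset.mem_insert_of_mem (Finset.mem_singleton_self v))
      simpa using this
    rcases h1 with rfl | rfl <;> rcases h2 with h2 | h2
    · exact absurd h2.symm hx
    · right; exact h2.symm
    · left; rw [h2]
    · exact absurd h2.symm hx
  · rintro (rfl | rfl)
    · refine ⟨by simpa using succ_ne m v, v, ?_⟩
      intro y hy
      simp only [Finset.mem_insert, Finset.mem_singleton] at hy ⊢
      tauto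
    · refine ⟨by simpa using (succ_ne m x).symm, x, ?_⟩
      intro y hy
      simp only [Finset.mem_insert, Finset.mem_singleton] at hy ⊢
      tauto

lemma sum_star (m : ℕ) (v : Fin (m + 4)) {A : Type} [AddCommMonoid A]
    (f : Up (cyc (m + 3)) {v + 1} → A) :
    ∑ x, f x = f ⟨v + 1 + 1, (star m (v + 1) _).2 (Or.inl rfl)⟩ +
      f ⟨v, (star m (v + 1) _).2 (Or.inr rfl)⟩ := by
  apply Fintype.sum_eq_add
  · intro h
    exact succ_succ_ne m v (congrArg Subtype.val h)
  · rintro ⟨x, hx⟩ ⟨h1, h2⟩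
    exfalso
    rcases (star m (v + 1) x).1 hx with h | h
    · exact h1 (Subtype.ext h)
    · exact h2 (Subtype.ext (add_right_cancel h))

section main

variable {E : Type} [AddCommGroup E] [Module ℝ E]

/-- the vertex `v` as a face -/
def vert (m : ℕ) (v : Fin (m + 4)) : Face (cyc (m + 3)) 1 :=
  ⟨{v}, (mem_cyc _ _).2 ⟨v, by simp⟩, by simp⟩

/-- the edge `{v + 1, v}` as a face -/
def edge (m : ℕ) (v : Fin (m + 4)) : Face (cyc (m + 3)) 2 :=
  ⟨insert (v + 1) {v}, (mem_cyc _ _).2 ⟨v, by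
    intro y hy
    simp only [Finset.mem_insert, Finset.mem_singleton] at hy ⊢
    tauto⟩, by
    rw [Finset.card_insert_of_notMem (by simpa using succ_ne m v)]; simp⟩

lemma edge_surj (m : ℕ) (e : Face (cyc (m + 3)) 2) : ∃ v, e = edge m v := by
  obtain ⟨σ, h1, h2⟩ := e
  obtain ⟨i, hi⟩ := (mem_cyc _ _).1 h1
  refine ⟨i, Subtype.ext ?_⟩
  show σ = insert (i + 1) {i}
  apply Finset.eq_of_subset_of_card_le
  · intro y hy
    have := hi hy
    simp only [Finset.mem_insert, Finset.mem_singleton] at this ⊢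
    tauto
  · rw [Finset.card_insert_of_notMem (by simpa using succ_ne m i), h2]; simp

lemma edge_inj (m : ℕ) (v w : Fin (m + 4)) (h : edge m v = edge m w) : v = w := by
  have h1 : (insert (v + 1) {v} : Finset (Fin (m + 4))) = insert (w + 1) {w} :=
    congrArg Subtype.val h
  have hv : v = w + 1 ∨ v = w := by
    have : v ∈ (insert (w + 1) {w} : Finset (Fin (m + 4))) := by rw [← h1]; simp
    simpa using this
  have hv' : v + 1 = w + 1 ∨ v + 1 = w := by
    have : v + 1 ∈ (insert (w + 1) {w} : Finset (Fin (m + 4))) := by rw [← h1]; simp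
    simpa using this
  rcases hv with hv | hv
  · rcases hv' with h' | h'
    · exact add_right_cancel h'
    · exfalso
      rw [hv] at h'
      exact succ_succ_ne m w h'
  · exact hv

/-- the boundary at a vertex of the cycle -/
lemma boundary_vert (m j : ℕ) (p : Fin (m + 4) → E)
    (A : Fin (m + 4) → Lam E j) (c : Chain (cyc (m + 3)) p j 2)
    (hc : ∀ v, c (edge m v) = cls p j (edge m v).1 (A v)) (v : Fin (m + 4)) :
    emb p (j + 1) {v + 1} (boundary (cyc (m + 3)) p j 1 c (vert m (v + 1))) =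
      incl E j (A (v + 1)) * ι ℝ (p (v + 1 + 1)) * ι ℝ (p (v + 1)) -
      incl E j (A v) * ι ℝ (p (v + 1)) * ι ℝ (p v) := by
  have h := boundary_apply (cyc (m + 3)) p j 1 c (vert m (v + 1))
  have h' := sum_star m v (fun x => emb p (j + 1) {v + 1} (wedgeCoeff p j {v + 1} x.1 x.2.1
          (c (up (vert m (v + 1)) x))))
  refine (h.trans h').trans ?_
  have key : ∀ (e : Face (cyc (m + 3)) 2) (w : Fin (m + 4)) (x : Fin (m + 4))
      (τ : Finset (Fin (m + 4))) (hx : x ∉ τ) (he : e = edge m w) (h2 : e.1 = insert x τ)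
      (h3 : insert x τ ∈ (cyc (m + 3)).faces ∧ (insert x τ).card = 2),
      emb p (j + 1) τ (wedgeCoeff p j τ x hx (c ⟨insert x τ, h3⟩)) =
        incl E j (A w) * ι ℝ (p x) * extensor p τ := by
    intro e w x τ hx he h2 h3
    obtain ⟨a, ha⟩ := cls_surj _ _ _ (c ⟨insert x τ, h3⟩)
    rw [ha, emb_wedge]
    have h10 : edge m w = ⟨insert x τ, h3⟩ := by
      rw [← he]; exact Subtype.ext h2
    have h11 : incl E j a * extensor p (insert x τ) =
        incl E j (A w) * extensor p (insert x τ) := by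
      have h12 : ∀ e' : Face (cyc (m + 3)) 2, edge m w = e' → ∀ a' : Lam E j,
          c e' = cls p j e'.1 a' →
          incl E j a' * extensor p e'.1 = incl E j (A w) * extensor p e'.1 := by
        intro e' he' a' ha'
        subst he'
        apply cls_eq
        rw [← ha', hc w]
      exact h12 _ h10 a ha
    rcases extensor_insert p τ x hx with h13 | h13
    · rw [h13, ← mul_assoc, ← mul_assoc] at h11
      exact h11
    · rw [h13, mul_neg, mul_neg, neg_inj, ← mul_assoc, ← mul_assoc] at h11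
      exact h11
  have e1 := key (edge m (v + 1)) (v + 1) (v + 1 + 1) {v + 1}
    ((star m (v + 1) _).2 (Or.inl rfl)).1 rfl rfl (edge m (v + 1)).2
  have e2 := key (edge m v) v v {v + 1}
    ((star m (v + 1) _).2 (Or.inr rfl)).1 rfl (Finset.pair_comm _ _)
    ⟨((star m (v + 1) _).2 (Or.inr rfl)).2, by
      rw [Finset.card_insert_of_notMem ((star m (v + 1) _).2 (Or.inr rfl)).1]; simp⟩
  refine (congrArg₂ (· + ·) e1 e2).trans ?_
  rw [extensor_singleton, ι_anti _ (p v) (p (v + 1)), sub_eq_add_neg]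

lemma betti_zero (m : ℕ) (p : Fin (m + 4) → E) (f : Fin (m + 4) → Module.Dual ℝ E)
    (hf1 : ∀ i, f i (p i) = 1) (hf0 : ∀ i j, j < i → f i (p j) = 0) :
    betti (cyc (m + 3)) p (m + 3) 2 = 0 := by
  have hker : ∀ c : Chain (cyc (m + 3)) p (m + 1) 2, boundary (cyc (m + 3)) p (m + 1) 1 c = 0 →
      c = 0 := by
    intro c hc
    have hA : ∀ v, ∃ a : Lam E (m + 1), c (edge m v) = cls p (m + 1) (edge m v).1 a :=
      fun v => cls_surj _ _ _ _
    choose A hA using hA
    have hstep : ∀ v, incl E (m + 1) (A (v + 1)) * ι ℝ (p (v + 1 + 1)) * ι ℝ (p (v + 1)) =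
      incl E (m + 1) (A v) * ι ℝ (p (v + 1)) * ι ℝ (p v) := by
      intro v
      have h := boundary_vert m (m + 1) p A c hA v
      rw [hc] at h
      have h0 : emb p (m + 1 + 1) {v + 1}
          ((0 : Chain (cyc (m + 3)) p (m + 1 + 1) 1) (vert m (v + 1))) = 0 :=
        map_zero (emb p (m + 1 + 1) {v + 1})
      rw [h0] at h
      exact sub_eq_zero.mp h.symm
    set w : ExteriorAlgebra ℝ E := incl E (m + 1) (A 0) * ι ℝ (p (0 + 1)) * ι ℝ (p 0)
      with hw
    have hall : ∀ v : Fin (m + 4),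
        incl E (m + 1) (A v) * ι ℝ (p (v + 1)) * ι ℝ (p v) = w := by
      intro v
      induction v using Fin.induction with
      | zero => rfl
      | succ i ih =>
        rw [← Fin.coeSucc_eq_succ, hstep, ih]
    have hwmem : w ∈ ⋀[ℝ]^(m + 3) E := by
      rw [hw, exteriorPower, pow_succ, pow_succ]
      exact Submodule.mul_mem_mul (Submodule.mul_mem_mul (A 0).2 ⟨_, rfl⟩) ⟨_, rfl⟩
    have hkill : ∀ v, w * ι ℝ (p v) = 0 := by
      intro v
      rw [← hall v, mul_assoc, ι_sq_zero, mul_zero]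
    have hw0 : w = 0 := kill (m + 3) (m + 4) (by omega) p f hf1 hf0 w hwmem hkill
    funext e
    obtain ⟨v, rfl⟩ := edge_surj m e
    show c (edge m v) = 0
    rw [hA v, cls_eq_zero]
    show incl E (m + 1) (A v) * extensor p (insert (v + 1) {v}) = 0
    have h1 : (v + 1) ∉ ({v} : Finset (Fin (m + 4))) := by simpa using succ_ne m v
    have h2 := hall v
    rw [hw0] at h2
    rcases extensor_insert p {v} (v + 1) h1 with h | h
    · rw [h, extensor_singleton, ← mul_assoc, h2]
    · rw [h, extensor_singleton, mul_neg, ← mul_assoc, h2, neg_zero]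
  have hbot : cycles (cyc (m + 3)) p (m + 1) 2 = ⊥ := by
    rw [Submodule.eq_bot_iff]
    intro c hc
    exact hker c hc
  have hsub : Subsingleton ↥(cycles (cyc (m + 3)) p (m + 1) 2) := by
    rw [hbot]; infer_instance
  have : Subsingleton (Homology (cyc (m + 3)) p (m + 1) 2) :=
    (Submodule.mkQ_surjective ((bounds (cyc (m + 3)) p 2 (m + 1)).submoduleOf
      (cycles (cyc (m + 3)) p (m + 1) 2))).subsingleton
  show Module.finrank ℝ (Homology (cyc (m + 3)) p (m + 1) 2) = 0
  exact Module.finrank_zero_of_subsingleton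

lemma betti_pos [Module.Finite ℝ E] (m : ℕ) (p : Fin (m + 4) → E) (w : ExteriorAlgebra ℝ E)
    (hw : w ∈ ⋀[ℝ]^(m + 3) E) (hw0 : w ≠ 0) (hkill : ∀ v, w * ι ℝ (p v) = 0)
    (hind : ∀ v, ∃ f g : Module.Dual ℝ E, f (p (v + 1)) = 0 ∧ f (p v) = 1 ∧ g (p (v + 1)) = 1) :
    0 < betti (cyc (m + 3)) p (m + 3) 2 := by
  have hA : ∀ v, ∃ b : Lam E (m + 1),
      incl E (m + 1) b * ι ℝ (p (v + 1)) * ι ℝ (p v) = w := by
    intro v
    obtain ⟨f, g, h1, h2, h3⟩ := hind v
    obtain ⟨b, hb, hb2⟩ := divide (m + 1) (p (v + 1)) (p v) f g h1 h2 h3 w hw (hkill _) (hkill _)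
    exact ⟨⟨b, hb⟩, hb2⟩
  choose A hA using hA
  choose idx hidx using edge_surj m
  let c : Chain (cyc (m + 3)) p (m + 1) 2 := fun e => cls p (m + 1) e.1 (A (idx e))
  have hcv : ∀ v, c (edge m v) = cls p (m + 1) (edge m v).1 (A v) := by
    intro v
    have h1 : idx (edge m v) = v := (edge_inj m _ _ (hidx (edge m v))).symm
    show cls p (m + 1) (edge m v).1 (A (idx (edge m v))) = _
    rw [h1]
  have hcyc : boundary (cyc (m + 3)) p (m + 1) 1 c = 0 := by
    funext τ
    have hτ : ∃ v, τ = vert m (v + 1) := by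
      obtain ⟨σ, h1, h2⟩ := τ
      obtain ⟨u, hu⟩ := Finset.card_eq_one.1 h2
      refine ⟨u - 1, Subtype.ext ?_⟩
      show σ = {u - 1 + 1}
      rw [hu, sub_add_cancel]
    obtain ⟨v, rfl⟩ := hτ
    apply emb_inj
    refine (boundary_vert m (m + 1) p A c hcv v).trans ?_
    rw [hA, hA, sub_self]
  have hcne : c ≠ 0 := by
    intro h
    have h1 : c (edge m 0) = 0 := by rw [h]; rfl
    rw [hcv, cls_eq_zero] at h1
    have h2 : incl E (m + 1) (A 0) * extensor p (insert (0 + 1) {0}) = 0 := h1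
    have h3 : (0 + 1 : Fin (m + 4)) ∉ ({0} : Finset (Fin (m + 4))) := by simpa using succ_ne m 0
    apply hw0
    rw [← hA 0]
    rcases extensor_insert p {0} (0 + 1) h3 with h | h
    · rw [h, extensor_singleton, ← mul_assoc] at h2
      exact h2
    · rw [h, extensor_singleton, mul_neg, ← mul_assoc, neg_eq_zero] at h2
      exact h2
  have hfL : Module.Finite ℝ (Lam E (m + 1)) :=
    inferInstanceAs (Module.Finite ℝ ↥(⋀[ℝ]^(m + 1) E))
  have hfC : ∀ σ, Module.Finite ℝ (Coeff p (m + 1) σ) := fun σ =>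
    inferInstanceAs (Module.Finite ℝ (Lam E (m + 1) ⧸ annih p (m + 1) σ))
  have hfin : Module.Finite ℝ (Chain (cyc (m + 3)) p (m + 1) 2) :=
    inferInstanceAs (Module.Finite ℝ ((σ : Face (cyc (m + 3)) 2) → Coeff p (m + 1) σ.1))
  have hfH : Module.Finite ℝ (Homology (cyc (m + 3)) p (m + 1) 2) :=
    inferInstanceAs (Module.Finite ℝ (↥(cycles (cyc (m + 3)) p (m + 1) 2) ⧸
      (bounds (cyc (m + 3)) p 2 (m + 1)).submoduleOf (cycles (cyc (m + 3)) p (m + 1) 2)))
  have hnt : Nontrivial (Homology (cyc (m + 3)) p (m + 1) 2) := by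
    refine ⟨⟨(Submodule.Quotient.mk ⟨c, hcyc⟩ : ↥(cycles (cyc (m + 3)) p (m + 1) 2) ⧸
      (bounds (cyc (m + 3)) p 2 (m + 1)).submoduleOf (cycles (cyc (m + 3)) p (m + 1) 2)), 0, ?_⟩⟩
    intro h
    have h' := (Submodule.Quotient.mk_eq_zero _).1 h
    obtain ⟨x, hx⟩ : ∃ x, boundary (cyc (m + 3)) p m 2 x = c := h'
    apply hcne
    rw [← hx]
    have hx0 : x = 0 := by
      funext e
      exfalso
      obtain ⟨σ, h1, h2⟩ := e
      obtain ⟨i, hi⟩ := (mem_cyc _ _).1 h1
      have h3 := Finset.card_le_card hi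
      have h4 : ({i, i + 1} : Finset (Fin (m + 3 + 1))).card ≤ 2 := Finset.card_le_two
      omega
    rw [hx0, map_zero]
  show 0 < Module.finrank ℝ (Homology (cyc (m + 3)) p (m + 1) 2)
  exact Module.finrank_pos

end main

/-- Every face with at most `r` vertices (dimension at most `r - 1`) has affinely independent
vertices. -/
def Nondeg {n d : ℕ} (Δ : Cx (Fin n)) (r : ℕ) (p : Fin n → Fin d → ℝ) : Prop :=
  ∀ σ ∈ Δ.faces, σ.card ≤ r → AffineIndependent ℝ (fun v : σ => p v.1)

lemma nondeg_cyc {n d : ℕ} (r : ℕ) (p : Fin (n + 1) → Fin d → ℝ) (h : ∀ i, p i ≠ p (i + 1)) :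
    Nondeg (cyc n) r p := by
  intro σ hσ _
  obtain ⟨i, hi⟩ := (mem_cyc n σ).1 hσ
  have h1 : AffineIndependent ℝ ![p i, p (i + 1)] := affineIndependent_of_ne ℝ (h i)
  let e : σ ↪ Fin 2 := ⟨fun v => if v.1 = i then 0 else 1, by
    rintro ⟨a, ha⟩ ⟨b, hb⟩ hab
    have ha' := hi ha
    have hb' := hi hb
    simp only [Finset.mem_insert, Finset.mem_singleton] at ha' hb'
    apply Subtype.ext
    show a = b
    by_cases hai : a = i <;> by_cases hbi : b = i
    · rw [hai, hbi]
    · simp [hai, hbi] at hab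
    · simp [hai, hbi] at hab
    · rcases ha' with h' | h'
      · exact absurd h' hai
      · rcases hb' with h'' | h''
        · exact absurd h'' hbi
        · rw [h', h'']⟩
  have h2 := h1.comp_embedding e
  have h3 : (fun v : σ => p v.1) = ![p i, p (i + 1)] ∘ e := by
    funext ⟨a, ha⟩
    have ha' := hi ha
    simp only [Finset.mem_insert, Finset.mem_singleton] at ha'
    by_cases hai : a = i
    · simp [e, hai]
    · rcases ha' with h' | h'
      · exact absurd h' hai
      · simp [e, hai]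
        rw [h']
  rw [h3]
  exact h2

/-- The points of the counterexample: vertex `0` is the origin, vertex `i` (for `1 ≤ i ≤ m + 2`) is
the `i`-th unit vector of `ℝ^(m + 2)`, and vertex `m + 3` is the all-ones vector of `ℝ^(m + 2)`
raised to height one. -/
noncomputable def pts (m e : ℕ) (i : Fin (m + 4)) : Fin (e + 1) → ℝ := fun k =>
  if k.1 = e then (if i.1 = m + 3 then 1 else 0)
  else if (i.1 = k.1 + 1 ∨ i.1 = m + 3) ∧ k.1 < m + 2 then 1 else 0

lemma bar_last {d : ℕ} (x : Fin d → ℝ) : bar x (Fin.last d) = 1 := by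
  simp [bar]

lemma bar_castSucc {d : ℕ} (x : Fin d → ℝ) (k : Fin d) : bar x k.castSucc = x k := by
  simp [bar]

lemma proj_pts (m e : ℕ) (i : Fin (m + 4)) (k : Fin e) :
    proj (pts m e i) k = if (i.1 = k.1 + 1 ∨ i.1 = m + 3) ∧ k.1 < m + 2 then 1 else 0 := by
  have hk : k.1 ≠ e := k.2.ne
  simp [proj, pts, hk]

lemma val_succ (m : ℕ) (v : Fin (m + 4)) (h : v.1 ≠ m + 3) : (v + 1).1 = v.1 + 1 := by
  apply Fin.val_add_one_of_lt
  rw [Fin.lt_def, Fin.val_last]
  have := v.2
  omega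

lemma val_last (m : ℕ) (v : Fin (m + 4)) (h : v.1 = m + 3) : (v + 1).1 = 0 := by
  have h1 : v = Fin.last (m + 3) := Fin.ext (by simpa using h)
  rw [h1, Fin.last_add_one]
  rfl

lemma down_pos (m e : ℕ) (he : m + 2 ≤ e) :
    0 < betti (cyc (m + 3)) (fun v => bar (proj (pts m e v))) (m + 3) 2 := by
  set q : Fin (m + 4) → Fin (e + 1) → ℝ := fun v => bar (proj (pts m e v)) with hq
  have hqlast : ∀ v, q v (Fin.last e) = 1 := fun v => bar_last _
  have hqk : ∀ v (k : Fin e), q v k.castSucc =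
      if (v.1 = k.1 + 1 ∨ v.1 = m + 3) ∧ k.1 < m + 2 then 1 else 0 := by
    intro v k
    rw [hq]
    show bar (proj (pts m e v)) k.castSucc = _
    rw [bar_castSucc, proj_pts]
  let u : ℕ → Fin (e + 1) → ℝ := fun i => if h : i < m + 4 then q ⟨i, h⟩ else 0
  have hu : ∀ v : Fin (m + 4), u v.1 = q v := by
    intro v
    simp only [u, v.2, dif_pos]
  let g : ℕ → Module.Dual ℝ (Fin (e + 1) → ℝ) := fun i =>
    if h : i - 1 < e ∧ i ≠ 0 then LinearMap.proj (Fin.castSucc ⟨i - 1, h.1⟩)
    else LinearMap.proj (Fin.last e)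
  have hge : ∀ i, i < m + 3 → ∀ j, j < m + 4 → g i (u j) =
      if i = 0 then 1 else if j = i ∨ j = m + 3 then 1 else 0 := by
    intro i hi j hj
    have h1 : u j = q ⟨j, hj⟩ := hu ⟨j, hj⟩
    rw [h1]
    by_cases h0 : i = 0
    · simp only [g, h0]
      simp [hqlast]
    · have h2 : i - 1 < e ∧ i ≠ 0 := ⟨by omega, h0⟩
      simp only [g, dif_pos h2, h0, if_false]
      show q ⟨j, hj⟩ (Fin.castSucc ⟨i - 1, h2.1⟩) = _
      rw [hqk]
      show (if (j = i - 1 + 1 ∨ j = m + 3) ∧ i - 1 < m + 2 then (1 : ℝ) else 0) = _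
      have h3 : i - 1 + 1 = i := by omega
      have h4 : i - 1 < m + 2 := by omega
      rw [h3]
      simp [h4]
  have hw0 : prodv u (m + 3) ≠ 0 := by
    apply prodv_ne u g
    · intro i hi
      rw [hge i hi i (by omega)]
      simp
    · intro i hi j hj
      rw [hge i hi j (by omega), if_neg (by omega), if_neg (by omega)]
  have hkill : ∀ v, prodv u (m + 3) * ι ℝ (q v) = 0 := by
    intro v
    by_cases hv : v.1 = m + 3
    · have hlin : q v = (∑ i ∈ Finset.range (m + 2), u (i + 1)) - ((m : ℝ) + 1) • u 0 := by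
        funext k
        refine Fin.lastCases ?_ (fun k => ?_) k
        · rw [Pi.sub_apply, Finset.sum_apply, Pi.smul_apply, hqlast]
          have h1 : ∀ i ∈ Finset.range (m + 2), u (i + 1) (Fin.last e) = 1 := by
            intro i hi
            have := Finset.mem_range.1 hi
            rw [hu ⟨i + 1, by omega⟩, hqlast]
          rw [Finset.sum_congr rfl h1, hu ⟨0, by omega⟩, hqlast]
          simp
          ring
        · rw [Pi.sub_apply, Finset.sum_apply, Pi.smul_apply, hqk]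
          have h1 : ∀ i ∈ Finset.range (m + 2), u (i + 1) k.castSucc =
              if i = k.1 then 1 else 0 := by
            intro i hi
            have := Finset.mem_range.1 hi
            rw [hu ⟨i + 1, by omega⟩, hqk]
            show (if (i + 1 = k.1 + 1 ∨ i + 1 = m + 3) ∧ k.1 < m + 2 then (1 : ℝ) else 0) = _
            by_cases hik : i = k.1
            · rw [if_pos hik, if_pos (by omega)]
            · rw [if_neg hik, if_neg (by omega)]
          have h2 : u 0 k.castSucc = 0 := by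
            rw [hu ⟨0, by omega⟩, hqk, if_neg]
            show ¬ ((0 = k.1 + 1 ∨ 0 = m + 3) ∧ k.1 < m + 2)
            omega
          rw [Finset.sum_congr rfl h1, h2]
          simp only [smul_zero, sub_zero, Finset.sum_ite_eq']
          by_cases hk : k.1 < m + 2
          · rw [if_pos ⟨Or.inr hv, hk⟩, if_pos (Finset.mem_range.2 hk)]
          · rw [if_neg (fun h => hk h.2), if_neg (fun h => hk (Finset.mem_range.1 h))]
      rw [hlin, map_sub, map_sum, map_smul, mul_sub, Finset.mul_sum, mul_smul_comm,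
        prodv_kill u (m + 3) 0 (by omega), smul_zero, sub_zero]
      apply Finset.sum_eq_zero
      intro i hi
      exact prodv_kill u (m + 3) (i + 1) (by have := Finset.mem_range.1 hi; omega)
    · rw [← hu v]
      exact prodv_kill u (m + 3) v.1 (by have := v.2; omega)
  have hind : ∀ v, ∃ f g : Module.Dual ℝ (Fin (e + 1) → ℝ),
      f (q (v + 1)) = 0 ∧ f (q v) = 1 ∧ g (q (v + 1)) = 1 := by
    intro v
    have he0 : 0 < e := by omega
    have hv4 := v.2
    let P : Fin (e + 1) → Module.Dual ℝ (Fin (e + 1) → ℝ) := fun k => LinearMap.proj k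
    by_cases h3 : v.1 = m + 3
    · refine ⟨P (Fin.castSucc ⟨0, he0⟩), P (Fin.last e), ?_, ?_,
        hqlast _⟩
      · show q (v + 1) (Fin.castSucc ⟨0, he0⟩) = 0
        rw [hqk, val_last m v h3, if_neg]
        simp
      · show q v (Fin.castSucc ⟨0, he0⟩) = 1
        rw [hqk, if_pos]
        exact ⟨Or.inr h3, by simp⟩
    · have hs := val_succ m v h3
      by_cases h0 : v.1 = 0 ∨ v.1 = m + 2
      · refine ⟨P (Fin.last e) - P (Fin.castSucc ⟨0, he0⟩),
          P (Fin.last e), ?_, ?_, hqlast _⟩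
        · show q (v + 1) (Fin.last e) - q (v + 1) (Fin.castSucc ⟨0, he0⟩) = 0
          rw [hqlast, hqk, hs, if_pos, sub_self]
          refine ⟨?_, by simp⟩
          show v.1 + 1 = 0 + 1 ∨ v.1 + 1 = m + 3
          omega
        · show q v (Fin.last e) - q v (Fin.castSucc ⟨0, he0⟩) = 1
          rw [hqlast, hqk, if_neg, sub_zero]
          show ¬ ((v.1 = 0 + 1 ∨ v.1 = m + 3) ∧ 0 < m + 2)
          omega
      · refine ⟨P (Fin.castSucc ⟨v.1 - 1, by omega⟩),
          P (Fin.last e), ?_, ?_, hqlast _⟩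
        · show q (v + 1) (Fin.castSucc ⟨v.1 - 1, by omega⟩) = 0
          rw [hqk, hs, if_neg]
          show ¬ ((v.1 + 1 = v.1 - 1 + 1 ∨ v.1 + 1 = m + 3) ∧ v.1 - 1 < m + 2)
          omega
        · show q v (Fin.castSucc ⟨v.1 - 1, by omega⟩) = 1
          rw [hqk, if_pos]
          show ((v.1 = v.1 - 1 + 1 ∨ v.1 = m + 3) ∧ v.1 - 1 < m + 2)
          omega
  exact betti_pos m q (prodv u (m + 3)) (prodv_mem u (m + 3)) hw0 hkill hind

lemma up_zero (m e : ℕ) (he : m + 2 ≤ e) :
    betti (cyc (m + 3)) (fun v => bar (pts m e v)) (m + 3) 2 = 0 := by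
  let f : Fin (m + 4) → Module.Dual ℝ (Fin (e + 1 + 1) → ℝ) := fun i =>
    if h0 : i.1 = 0 then LinearMap.proj (Fin.last (e + 1))
    else if h3 : i.1 = m + 3 then LinearMap.proj (Fin.castSucc ⟨e, by omega⟩)
    else LinearMap.proj (Fin.castSucc ⟨i.1 - 1, by have := i.2; omega⟩)
  apply betti_zero m _ f
  · intro i
    have hi := i.2
    by_cases h0 : i.1 = 0
    · simp only [f, dif_pos h0]
      exact bar_last _
    · by_cases h3 : i.1 = m + 3
      · simp only [f, dif_neg h0, dif_pos h3]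
        show bar (pts m e i) (Fin.castSucc ⟨e, _⟩) = 1
        rw [bar_castSucc]
        simp [pts, h3]
      · simp only [f, dif_neg h0, dif_neg h3]
        show bar (pts m e i) (Fin.castSucc ⟨i.1 - 1, _⟩) = 1
        rw [bar_castSucc]
        simp only [pts]
        rw [if_neg (by omega), if_pos (by omega)]
  · intro i j hij
    have hi := i.2
    have hij' : j.1 < i.1 := hij
    by_cases h0 : i.1 = 0
    · omega
    · by_cases h3 : i.1 = m + 3
      · simp only [f, dif_neg h0, dif_pos h3]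
        show bar (pts m e j) (Fin.castSucc ⟨e, _⟩) = 0
        rw [bar_castSucc]
        simp only [pts]
        rw [if_pos trivial, if_neg (by omega)]
      · simp only [f, dif_neg h0, dif_neg h3]
        show bar (pts m e j) (Fin.castSucc ⟨i.1 - 1, _⟩) = 0
        rw [bar_castSucc]
        simp only [pts]
        rw [if_neg (by omega), if_neg (by omega)]

lemma proj_pos (m e : ℕ) (i : Fin (m + 4)) (k : ℕ) (hk : k < e)
    (h : (i.1 = k + 1 ∨ i.1 = m + 3) ∧ k < m + 2) : proj (pts m e i) ⟨k, hk⟩ = 1 := by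
  rw [proj_pts, if_pos h]

lemma proj_neg (m e : ℕ) (i : Fin (m + 4)) (k : ℕ) (hk : k < e)
    (h : i.1 ≠ k + 1 ∧ i.1 ≠ m + 3) : proj (pts m e i) ⟨k, hk⟩ = 0 := by
  rw [proj_pts, if_neg]
  rintro ⟨h1 | h1, _⟩
  · exact h.1 h1
  · exact h.2 h1

lemma proj_ne (m e : ℕ) (he : m + 2 ≤ e) (v : Fin (m + 4)) :
    proj (pts m e v) ≠ proj (pts m e (v + 1)) := by
  intro h
  have hv4 := v.2
  have he0 : 0 < e := by omega
  by_cases h3 : v.1 = m + 3
  · have hs := val_last m v h3
    have h1 := congrFun h ⟨0, he0⟩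
    rw [proj_pos m e v 0 he0 (by omega), proj_neg m e (v + 1) 0 he0 (by omega)] at h1
    exact one_ne_zero h1
  · have hs := val_succ m v h3
    by_cases h0 : v.1 = 0 ∨ v.1 = m + 2
    · have h1 := congrFun h ⟨0, he0⟩
      rw [proj_neg m e v 0 he0 (by omega), proj_pos m e (v + 1) 0 he0 (by omega)] at h1
      exact one_ne_zero h1.symm
    · have h1 := congrFun h ⟨v.1 - 1, by omega⟩
      rw [proj_pos m e v _ (by omega) (by omega),
        proj_neg m e (v + 1) _ (by omega) (by omega)] at h1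
      exact one_ne_zero h1

/-- For all `r ≥ 3` and all `d = e + 1 ≥ r` the inequality between Betti numbers under vertical
projection fails in the degree `i = 1` (faces with `k = 2` vertices), and `1 ≤ r - 2`. -/
theorem result (e r : ℕ) (hr : 3 ≤ r) (hd : r ≤ e + 1) :
    ∃ (n : ℕ) (Δ : Cx (Fin n)) (p : Fin n → Fin (e + 1) → ℝ),
      Nondeg Δ r p ∧ Nondeg Δ r (fun v => proj (p v)) ∧
      betti Δ (fun v => bar (p v)) r 2 < betti Δ (fun v => bar (proj (p v))) r 2 := by
  obtain ⟨m, rfl⟩ : ∃ m, r = m + 3 := ⟨r - 3, by omega⟩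
  refine ⟨m + 3 + 1, cyc (m + 3), pts m e, ?_, ?_, ?_⟩
  · apply nondeg_cyc
    intro i h
    exact proj_ne m e (by omega) i (by rw [h])
  · exact nondeg_cyc _ _ (proj_ne m e (by omega))
  · rw [up_zero m e (by omega)]
    exact down_pos m e (by omega)

end Pool.Agent.Results.MP_7bb607_co.CycleDrop
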